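import Pool.Agent.Helper19.PM.Goals
import Pool.Agent.Helper29.BL.PS

/-!
# Project P1M (MP_a41896_nt): the key inequality (adapted from `Helper9/VN/KEYB.lean`)
-/

set_option autoImplicit false

open MvPolynomial

namespace Pool.Agent.Helper93.PM

open WeierstrassCurve Height
open Pool.Agent.Helper29.BL Pool.Agent.Helper92.Ru Pool.Agent.Helper42.SG
open Pool.Agent.Helper77.SGC (N0)
open Pool.Agent.Helper76.SGC (NFB)
open Pool.Agent.Helper68.VN hiding xs Good nz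
open Pool.Agent.Helper19.PM

noncomputable section

/-- the inequality for one pair of indices -/
lemma one_pair {a b m : ℝ} (ha : 1 ≤ a) (hb : 1 ≤ b) (hm : 1 ≤ m) (N M : ℕ) (hM : 1 ≤ M)
    (μ : Fin 2) :
    (b * a ^ 2 * (b * m ^ 2)) ^ μ.val * m ^ (2 * M - 2 * μ.val) * a ^ N ≤
      b ^ 2 * a ^ (N + 2) * m ^ (2 * M) := by
  have hμ := μ.isLt
  have a0 : 0 ≤ a := by linarith
  have b0 : 0 ≤ b := by linarith
  have m0 : 0 ≤ m := by linarith
  rcases Nat.lt_or_ge μ.val 1 with h | h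
  · have h0 : μ.val = 0 := by omega
    rw [h0, pow_zero, one_mul, mul_zero, Nat.sub_zero]
    have h1 : (1 : ℝ) ≤ b ^ 2 := one_le_pow₀ hb
    have h2 : a ^ N ≤ a ^ (N + 2) := pow_le_pow_right₀ ha (by omega)
    have h3 : 0 ≤ m ^ (2 * M) := by positivity
    have h4 : 0 ≤ a ^ (N + 2) := by positivity
    calc m ^ (2 * M) * a ^ N ≤ m ^ (2 * M) * a ^ (N + 2) := mul_le_mul_of_nonneg_left h2 h3
      _ = 1 * (m ^ (2 * M) * a ^ (N + 2)) := by ring
      _ ≤ b ^ 2 * (m ^ (2 * M) * a ^ (N + 2)) := mul_le_mul_of_nonneg_right h1 (by positivity)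
      _ = _ := by ring
  · have h0 : μ.val = 1 := by omega
    rw [h0, pow_one]
    obtain ⟨k, rfl⟩ : ∃ k, M = k + 1 := ⟨M - 1, by omega⟩
    have h1 : 2 * (k + 1) - 2 * 1 = 2 * k := by omega
    rw [h1]
    apply le_of_eq
    ring

variable {σ : Type} [Fintype σ]

/-- the inequality for one block -/
lemma one_block {a m : σ → ℝ} {b ρ P : ℝ} (ha : ∀ i, 1 ≤ a i) (hb : 1 ≤ b) (hm : ∀ i, 1 ≤ m i)
    (hρ : 0 < ρ) (hρ1 : ρ ≤ 1) (hP : 0 ≤ P) (N M k g : ℕ) (hM : 1 ≤ M) (hk : k ≤ g)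
    (μ : σ → Fin 2) :
    (∏ i, (b * a i ^ 2 * (b * m i ^ 2)) ^ (μ i).val) * (P * (∏ i, a i ^ N) * ρ ^ g) *
        (∏ i, m i ^ (2 * M - 2 * (μ i).val)) ≤
      P * (b ^ (2 * Fintype.card σ) * ((∏ i, a i) ^ (N + 2) * ρ ^ k) * ∏ i, m i ^ (2 * M)) := by
  have h1 : (∏ i, (b * a i ^ 2 * (b * m i ^ 2)) ^ (μ i).val) *
      (∏ i, m i ^ (2 * M - 2 * (μ i).val)) * (∏ i, a i ^ N) ≤
      ∏ i, (b ^ 2 * a i ^ (N + 2) * m i ^ (2 * M)) := by
    rw [← Finset.prod_mul_distrib, ← Finset.prod_mul_distrib]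
    refine Finset.prod_le_prod (fun i _ => ?_) fun i _ => one_pair (ha i) hb (hm i) N M hM (μ i)
    have a0 : 0 ≤ a i := le_trans zero_le_one (ha i)
    have b0 : 0 ≤ b := le_trans zero_le_one hb
    have m0 : 0 ≤ m i := le_trans zero_le_one (hm i)
    positivity
  have h2 : ∏ i, (b ^ 2 * a i ^ (N + 2) * m i ^ (2 * M)) =
      b ^ (2 * Fintype.card σ) * (∏ i, a i) ^ (N + 2) * ∏ i, m i ^ (2 * M) := by
    rw [Finset.prod_mul_distrib, Finset.prod_mul_distrib, Finset.prod_const, Finset.card_univ,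
      Finset.prod_pow, ← pow_mul]
  rw [h2] at h1
  have h3 : ρ ^ g ≤ ρ ^ k := pow_le_pow_of_le_one hρ.le hρ1 hk
  have h4 : 0 ≤ b ^ (2 * Fintype.card σ) * (∏ i, a i) ^ (N + 2) * ∏ i, m i ^ (2 * M) := by
    have b0 : 0 ≤ b := le_trans zero_le_one hb
    have a0 : 0 ≤ ∏ i, a i := Finset.prod_nonneg fun i _ => le_trans zero_le_one (ha i)
    have m0 : 0 ≤ ∏ i, m i ^ (2 * M) :=
      Finset.prod_nonneg fun i _ => pow_nonneg (le_trans zero_le_one (hm i)) _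
    positivity
  have h5 := mul_le_mul h1 h3 (by positivity) h4
  have h6 := mul_le_mul_of_nonneg_left h5 hP
  calc _ = P * ((∏ i, (b * a i ^ 2 * (b * m i ^ 2)) ^ (μ i).val) *
      (∏ i, m i ^ (2 * M - 2 * (μ i).val)) * (∏ i, a i ^ N) * ρ ^ g) := by ring
    _ ≤ _ := h6
    _ = _ := by ring

lemma N0_le (M e : ℕ) : N0 M e + 1 ≤ 4 ^ e * (2 * M + 2) := by
  unfold N0
  have : 1 ≤ 4 ^ e := Nat.one_le_pow _ _ (by norm_num)
  nlinarith

/-- the product of the constants -/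
lemma prodC {n : ℕ} (M m : ℕ) (e : Fin n → ℕ) {b : ℝ} {g : Fin n → ℝ} (hb : 1 ≤ b)
    (hg : ∀ j, 1 ≤ g j) :
    (∏ j : Fin n, g j ^ (N0 M (e j) + 1) * b ^ (4 ^ e j * (M + 1) * m)) *
      (∏ j : Fin n, g j ^ (N0 M (e j) + 1)) ≤
      (b ^ ((M + 1) * m)) ^ sqB e * ∏ j, g j ^ ((4 * M + 4) * 4 ^ e j) := by
  unfold sqB
  rw [← Finset.prod_mul_distrib, ← Finset.prod_pow_eq_pow_sum, ← Finset.prod_mul_distrib]
  have b0 : 0 ≤ b := le_trans zero_le_one hb
  have g0 : ∀ j, 0 ≤ g j := fun j => le_trans zero_le_one (hg j)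
  refine Finset.prod_le_prod (fun j _ => ?_) fun j _ => ?_
  · have := g0 j
    positivity
  have hb' := hg j
  have b0' := g0 j
  have h1 := N0_le M (e j)
  have h2 : g j ^ (N0 M (e j) + 1) ≤ g j ^ (4 ^ e j * (2 * M + 2)) := pow_le_pow_right₀ hb' h1
  have h3 : g j ^ (N0 M (e j) + 1) * g j ^ (N0 M (e j) + 1) ≤
      g j ^ (4 ^ e j * (2 * M + 2)) * g j ^ (4 ^ e j * (2 * M + 2)) :=
    mul_le_mul h2 h2 (by positivity) (by positivity)
  have h4 := mul_le_mul_of_nonneg_right h3 (show 0 ≤ b ^ (4 ^ e j * (M + 1) * m) by positivity)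
  calc _ = g j ^ (N0 M (e j) + 1) * g j ^ (N0 M (e j) + 1) * b ^ (4 ^ e j * (M + 1) * m) := by ring
    _ ≤ _ := h4
    _ = _ := by
      rw [← pow_mul, ← pow_add, mul_comm]
      congr 2 <;> ring

/-- Goal KEYW. -/
theorem t_KEYW (h1 : EXPW) (h2 : VANB) (h4 : BRNW) (h6 : CNTB) (h3 : NFB) :
    Pool.Agent.Helper19.PM.KEYW := by
  intro K _ _ σ _ _ W B D c hB J w n M δ k0 p hn hM hδ
  obtain ⟨C, hC1, hC⟩ := h6 σ n M δ c hn
  have hB1 : ∀ v, 1 ≤ B v := hB.one_le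
  refine ⟨fun v => cst v C * B v ^ ((M + 1) * Fintype.card σ), ⟨?_, ?_⟩, ?_⟩
  · intro v
    exact one_le_mul_of_one_le_of_one_le (one_le_cst v hC1) (one_le_pow₀ (hB1 v))
  · have h8 : FS (K := K) (fun v => Real.log (cst v C) +
          (((M + 1) * Fintype.card σ : ℕ) : ℝ) * Real.log (B v)) :=
      (FS_log_cst C).add (hB.fin.const_mul _)
    refine h8.mono fun v _ hv => ?_
    have c0 : cst v C ≠ 0 := (cst_pos v hC1).ne'
    have b0 : B v ≠ 0 := (lt_of_lt_of_le one_pos (hB1 v)).ne'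
    rw [Real.log_mul c0 (pow_ne_zero _ b0), Real.log_pow]
    exact hv
  intro f e d G S T _ gr E r U ν x0 ψ0 H hG hS hE hEN hR cc hcc v A _ _ N hN X Ψ a ρ s b hOn ha hb
    hρ hX hΨ hψ0 hf hs lam
  obtain ⟨n0, n1, npow, nprod, nsum⟩ := h3 K v A N hN
  have hm : ∀ i, 1 ≤ Mv v (x0 i) := fun i => one_le_Mv v _
  have b0 : 0 ≤ b := le_trans zero_le_one hb
  have α0 : Ix σ n M δ e := (fun j i => (⟨0, by positivity⟩, ⟨0, by omega⟩), fun _ => ⟨0, by omega⟩)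
  have hs0 : 0 ≤ s := le_trans (v.nonneg _) (hs α0)
  set m := Fintype.card σ with hmdef
  have hkB : 0 ≤ keyV v M δ k0 e a ρ x0 := by
    unfold keyV
    refine mul_nonneg (Finset.prod_nonneg fun j _ => mul_nonneg (pow_nonneg
      (Finset.prod_nonneg fun i _ => le_trans zero_le_one (ha j i)) _) (pow_nonneg (hρ j).1.le _))
      (Finset.prod_nonneg fun i _ => pow_nonneg (le_trans zero_le_one (hm i)) _)
  set NN : ℝ := (Nat.card (Ix σ n M δ e) : ℝ) *
    ∏ j : Fin n, ((2 * M + 1 : ℝ) * (N0 M (e j) + 1)) ^ m with hNN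
  have hcard1 : (1 : ℝ) ≤ NN := by
    have hc0 : 1 ≤ Nat.card (Ix σ n M δ e) := by
      rw [Nat.card_eq_fintype_card]
      exact Fintype.card_pos_iff.2 ⟨α0⟩
    have hc1 : (1 : ℝ) ≤ (Nat.card (Ix σ n M δ e) : ℝ) := by exact_mod_cast hc0
    refine one_le_mul_of_one_le_of_one_le hc1 ?_
    refine Finset.prod_induction _ (fun x : ℝ => 1 ≤ x)
      (fun _ _ h h' => one_le_mul_of_one_le_of_one_le h h') le_rfl fun j _ => one_le_pow₀ ?_
    have g1 : (0 : ℝ) ≤ M := Nat.cast_nonneg M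
    have g2 : (0 : ℝ) ≤ N0 M (e j) := Nat.cast_nonneg _
    exact one_le_mul_of_one_le_of_one_le (by linarith) (by linarith)
  set Q := cst v NN with hQ
  have hQ0 : 0 ≤ Q := (cst_pos v hcard1).le
  set P := ∏ j : Fin n, G j v ^ (N0 M (e j) + 1) * B v ^ (4 ^ e j * (M + 1) * m) with hP
  have hP0 : 0 ≤ P := Finset.prod_nonneg fun j _ => mul_nonneg
    (pow_nonneg (le_trans zero_le_one (hG j v)) _) (pow_nonneg (le_trans zero_le_one (hB1 v)) _)
  set P' := ∏ j : Fin n, G j v ^ (N0 M (e j) + 1) with hP'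
  have hP0' : 0 ≤ P' := Finset.prod_nonneg fun j _ => pow_nonneg (le_trans zero_le_one (hG j v)) _
  set T0 := Q * s * (P * P') * (b ^ (2 * n * m) * keyV v M δ k0 e a ρ x0) with hT0
  have hT : 0 ≤ T0 := by positivity
  rw [h1 K σ W B D c n M δ p e d G S T gr E r hS hE cc x0 ψ0 A X Ψ hOn lam]
  have hψN : ∀ i, N (cn A ψ0 i) (b * Mv v (x0 i) ^ 2) := fun i =>
    hN.mono _ _ _ (hN.const (ψ0 i)) (hψ0 i)
  -- every term
  have hterm : ∀ μ : Fin n → σ → Fin 2, ∀ t : ∀ j, T j,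
      N ((∏ j, ((∏ i, (Ψ j i * cn A ψ0 i) ^ (μ j i).val) * aeval (X j) (E j (t j)))) *
        algebraMap K A (BrB S n M δ e T r cc x0 lam μ t)) T0 := by
    intro μ t
    by_cases hbad : ∃ j, gr j (t j) < k0 * 4 ^ e j
    · obtain ⟨j, hj⟩ := hbad
      rw [h2 K σ n M δ k0 e S T gr r U ν x0 H hR cc hcc lam μ t j hj, map_zero, mul_zero]
      exact hN.mono 0 0 T0 n0 hT
    push Not at hbad
    have hbr := h4 K σ W B D c n M δ p hB1 hδ e d G S T gr E r hG hS hE cc x0 v s hs0 hs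
      lam μ t
    have hpN : N (∏ j, ((∏ i, (Ψ j i * cn A ψ0 i) ^ (μ j i).val) * aeval (X j) (E j (t j))))
        (∏ j, ((∏ i, (b * a j i ^ 2 * (b * Mv v (x0 i) ^ 2)) ^ (μ j i).val) *
          (G j v ^ (N0 M (e j) + 1) * (∏ i, a j i ^ (N0 M (e j))) * ρ j ^ gr j (t j)))) := by
      refine nprod _ Finset.univ _ _ fun j _ => hN.mul _ _ _ _ ?_ ?_
      · exact nprod _ Finset.univ _ _ fun i _ => npow _ _ (hN.mul _ _ _ _ (hΨ j i) (hψN i)) _
      · exact hEN j v A N hN (X j) (a j) (ρ j) (ha j) (hρ j).1 (hρ j).2 (hX j) (hf j) (t j)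
    refine hN.mono _ _ _ (hN.mul _ _ _ _ hpN (hN.mono _ _ _ (hN.const _) hbr)) ?_
    have hbl := Finset.prod_le_prod (s := (Finset.univ : Finset (Fin n)))
      (fun j _ => ?_) fun j _ => one_block (ha j) hb hm (hρ j).1 (hρ j).2
      (pow_nonneg (le_trans zero_le_one (hG j v)) (N0 M (e j) + 1)) (N0 M (e j)) M (k0 * 4 ^ e j)
      (gr j (t j)) hM (hbad j) (μ j)
    swap
    · have p1 : ∀ i, 0 ≤ a j i := fun i => le_trans zero_le_one (ha j i)
      have p2 : ∀ i, 0 ≤ Mv v (x0 i) := fun i => le_trans zero_le_one (hm i)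
      have p3 : 0 ≤ G j v := le_trans zero_le_one (hG j v)
      have p4 : 0 ≤ ρ j := (hρ j).1.le
      refine mul_nonneg (mul_nonneg (Finset.prod_nonneg fun i _ => ?_) (mul_nonneg (mul_nonneg
        (pow_nonneg p3 _) (Finset.prod_nonneg fun i _ => pow_nonneg (p1 i) _)) (pow_nonneg p4 _)))
        (Finset.prod_nonneg fun i _ => pow_nonneg (p2 i) _)
      exact pow_nonneg (mul_nonneg (mul_nonneg b0 (sq_nonneg _)) (mul_nonneg b0 (sq_nonneg _))) _
    have hbl' : (∏ j, ((∏ i, (b * a j i ^ 2 * (b * Mv v (x0 i) ^ 2)) ^ (μ j i).val) *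
          (G j v ^ (N0 M (e j) + 1) * (∏ i, a j i ^ (N0 M (e j))) * ρ j ^ gr j (t j)))) *
          (∏ j, ∏ i, Mv v (x0 i) ^ (2 * M - 2 * (μ j i).val)) ≤
        P' * ∏ j : Fin n, (b ^ (2 * Fintype.card σ) * ((∏ i, a j i) ^ (N0 M (e j) + 2) *
        ρ j ^ (k0 * 4 ^ e j)) * ∏ i, Mv v (x0 i) ^ (2 * M)) := by
      rw [hP', ← Finset.prod_mul_distrib, ← Finset.prod_mul_distrib]
      exact hbl
    have hbr2 : ∏ j : Fin n, (b ^ (2 * Fintype.card σ) * ((∏ i, a j i) ^ (N0 M (e j) + 2) *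
        ρ j ^ (k0 * 4 ^ e j)) * ∏ i, Mv v (x0 i) ^ (2 * M)) =
        b ^ (2 * n * m) * ((∏ j, ((∏ i, a j i) ^ (2 * 4 ^ e j * M + 4 ^ e j + 2) *
          ρ j ^ (k0 * 4 ^ e j))) * ∏ i, Mv v (x0 i) ^ (2 * n * M)) := by
      rw [Finset.prod_mul_distrib, Finset.prod_mul_distrib, Finset.prod_const, Finset.prod_const,
        Finset.card_univ, Fintype.card_fin, ← pow_mul, ← Finset.prod_pow]
      have q1 : 2 * Fintype.card σ * n = 2 * n * m := by rw [hmdef]; ring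
      have q2 : ∏ i, (Mv v (x0 i) ^ (2 * M)) ^ n = ∏ i, Mv v (x0 i) ^ (2 * n * M) := by
        refine Finset.prod_congr rfl fun i _ => ?_
        rw [← pow_mul]
        congr 1
        ring
      rw [q1, q2, mul_assoc]
      rfl
    rw [hbr2] at hbl'
    have hMδ : 0 ≤ ∏ i, Mv v (x0 i) ^ δ :=
      Finset.prod_nonneg fun i _ => pow_nonneg (le_trans zero_le_one (hm i)) _
    have hkey : keyV v M δ k0 e a ρ x0 = ((∏ j, ((∏ i, a j i) ^ (2 * 4 ^ e j * M + 4 ^ e j + 2) *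
          ρ j ^ (k0 * 4 ^ e j))) * ∏ i, Mv v (x0 i) ^ (2 * n * M)) * ∏ i, Mv v (x0 i) ^ δ := by
      have hsp : ∏ i, Mv v (x0 i) ^ (2 * n * M + δ) =
          (∏ i, Mv v (x0 i) ^ (2 * n * M)) * ∏ i, Mv v (x0 i) ^ δ := by
        rw [← Finset.prod_mul_distrib]
        exact Finset.prod_congr rfl fun i _ => pow_add _ _ _
      unfold keyV
      rw [hsp]
      ring
    have hfin := mul_le_mul_of_nonneg_left (mul_le_mul_of_nonneg_right hbl' hMδ)
      (show 0 ≤ Q * s * P by positivity)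
    rw [hT0, hkey]
    refine le_trans (le_of_eq ?_) (le_trans hfin (le_of_eq ?_))
    · ring
    · ring
  have hinner : ∀ μ : Fin n → σ → Fin 2, N (∑ t : ∀ j, T j,
      (∏ j, ((∏ i, (Ψ j i * cn A ψ0 i) ^ (μ j i).val) * aeval (X j) (E j (t j)))) *
        algebraMap K A (BrB S n M δ e T r cc x0 lam μ t))
      (cst v ((Finset.univ : Finset (∀ j, T j)).card : ℝ) * T0) := fun μ =>
    nsum _ _ _ _ hT fun t _ => hterm μ t
  have hct : 0 ≤ cst v ((Finset.univ : Finset (∀ j, T j)).card : ℝ) := by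
    unfold cst
    split_ifs
    · exact zero_le_one
    · exact Nat.cast_nonneg _
  have hout := nsum _ (Finset.univ : Finset (Fin n → σ → Fin 2)) _ _
    (mul_nonneg hct hT) fun μ _ => hinner μ
  refine hN.mono _ _ _ hout ?_
  have hcst : cst v ((Finset.univ : Finset (Fin n → σ → Fin 2)).card : ℝ) *
      cst v ((Finset.univ : Finset (∀ j, T j)).card : ℝ) * Q ≤ cst v C ^ sqB e := by
    rw [hQ, ← cst_mul, ← cst_mul, ← cst_pow]
    have := hC e T fun j => (hE j).card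
    rw [Nat.card_eq_fintype_card, Nat.card_eq_fintype_card] at this
    rw [Finset.card_univ, Finset.card_univ]
    exact cst_mono v this
  have hPP := prodC M m e (hB1 v) (fun j => hG j v)
  rw [← hP, ← hP'] at hPP
  have hbk : 0 ≤ b ^ (2 * n * m) * keyV v M δ k0 e a ρ x0 := by positivity
  have hcC : 0 ≤ cst v C ^ sqB e := pow_nonneg (cst_pos v hC1).le _
  calc _ = (cst v ((Finset.univ : Finset (Fin n → σ → Fin 2)).card : ℝ) *
      cst v ((Finset.univ : Finset (∀ j, T j)).card : ℝ) * Q) *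
        (s * (P * P') * (b ^ (2 * n * m) * keyV v M δ k0 e a ρ x0)) := by
        rw [hT0]; ring
    _ ≤ cst v C ^ sqB e * (s * (P * P') * (b ^ (2 * n * m) * keyV v M δ k0 e a ρ x0)) :=
        mul_le_mul_of_nonneg_right hcst (by positivity)
    _ = (cst v C ^ sqB e * s * (b ^ (2 * n * m) * keyV v M δ k0 e a ρ x0)) * (P * P') := by ring
    _ ≤ (cst v C ^ sqB e * s * (b ^ (2 * n * m) * keyV v M δ k0 e a ρ x0)) *
        ((B v ^ ((M + 1) * m)) ^ sqB e * ∏ j, G j v ^ ((4 * M + 4) * 4 ^ e j)) :=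
        mul_le_mul_of_nonneg_left hPP (by positivity)
    _ = _ := by
        rw [mul_pow]; ring

end

end Pool.Agent.Helper93.PM
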